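import Pool.Agent.Lib_helper66.HEX.Main

/-!
Hex on the `n × n` board: a win within `k` stones of the first player needs
`k ≥ 8 ⌊n / 6⌋ + (n mod 6) + e` with `e = 1` if `n mod 6` is 4 or 5, and `e = 0` otherwise.
-/

namespace Pool.Agent.Results.MP_561a7b_co.FourThirds

open Pool.Agent.Lib_helper66.HEX

/-- If the first player (Red) has a strategy that, from the empty `n × n` board, wins no later
than with his `k`-th stone, then `k ≥ 8 ⌊n / 6⌋ + (n mod 6) + e`, where `e = 1` if `n mod 6 ≥ 4`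
and `e = 0` otherwise; in particular `k ≥ 4 n / 3 - 1`. -/
theorem result (n k : ℕ) (h : RedWinsWithin n k ∅ ∅) :
    8 * (n / 6) + n % 6 + (if 4 ≤ n % 6 then 1 else 0) ≤ k ∧ 4 * n ≤ 3 * k + 3 := by
  have h1 := wins_bound h
  have h2 : n % 6 < 6 := Nat.mod_lt _ (by norm_num)
  have h3 : wt (n % 6) = n % 6 + (if 4 ≤ n % 6 then 1 else 0) := by
    generalize n % 6 = m at h2
    interval_cases m <;> simp [wt]
  rw [h3] at h1
  refine ⟨by omega, ?_⟩
  have h4 := Nat.div_add_mod n 6
  split_ifs at h1 <;> omega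

end Pool.Agent.Results.MP_561a7b_co.FourThirds
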